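import Pool.Agent.W586.SK.Stm2

set_option autoImplicit false

open MeasureTheory Set Filter Topology
open scoped ENNReal InnerProductSpace
open Pool.Agent.H212R2.KLS (mu Bdd)
open Pool.Agent.H888R2.KT (LC zz gs gc pst hs)
open Pool.Agent.W586.SK (E nm dv chi)
open Pool.Agent.W586.SX

namespace Pool.Agent.W891.SX.Flow

/-- the pointwise inequality -/
theorem point (h1 : S_DIR) {n : ℕ} (g : E n → ℝ) (hg : Sx g) (hg1 : Differentiable ℝ g)
    (k l : Fin n) (x d : E n) (hx : x l ≤ x k) (α : ℝ) (β γ : Fin n → ℝ) (hα : 0 ≤ α)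
    (hβ : ∀ j, 0 ≤ β j) (hγ : ∀ j, 0 ≤ γ j) (hβ1 : ∀ j, β j ≠ 0 → x j ≤ x k)
    (hγ1 : ∀ j, γ j ≠ 0 → x l ≤ x j)
    (hd : d = α • (ev k - ev l) + ∑ j, β j • (ev k - ev j) + ∑ j, γ j • (ev j - ev l)) :
    fderiv ℝ g x d ≤ 0 := by
  rw [hd, map_add, map_add, map_sum, map_sum, map_smul]
  have e1 : α • fderiv ℝ g x (ev k - ev l) ≤ 0 :=
    mul_nonpos_of_nonneg_of_nonpos hα (h1 g hg hg1 k l x hx)
  have e2 : ∑ j, fderiv ℝ g x (β j • (ev k - ev j)) ≤ 0 := by
    refine Finset.sum_nonpos fun j _ => ?_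
    rw [map_smul]
    by_cases h0 : β j = 0
    · rw [h0, zero_smul]
    · exact mul_nonpos_of_nonneg_of_nonpos (hβ j) (h1 g hg hg1 k j x (hβ1 j h0))
  have e3 : ∑ j, fderiv ℝ g x (γ j • (ev j - ev l)) ≤ 0 := by
    refine Finset.sum_nonpos fun j _ => ?_
    rw [map_smul]
    by_cases h0 : γ j = 0
    · rw [h0, zero_smul]
    · exact mul_nonpos_of_nonneg_of_nonpos (hγ j) (h1 g hg hg1 j l x (hγ1 j h0))
  linarith

theorem flow (h1 : S_DIR) (h2 : S_ZZ) (h3 : Pool.Agent.W586.SK.S_IBP)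
    (h4 : Pool.Agent.W586.SK.S_LIM) (h5 : S_FIELD) : S_FLOW := by
  intro n ρ hS hL k l a hkl ha F hF hFc hF0 hFi
  obtain ⟨hw, hfield⟩ := h5 k l a hkl ha
  set w : E n → E n := fx (48 * a) k l with hwdef
  have hdv : Continuous (dv w) := by
    unfold dv
    refine continuous_finset_sum _ (fun k _ => ?_)
    have h6 : Continuous (fun x => fderiv ℝ w x (EuclideanSpace.single k 1)) :=
      (hw.continuous_fderiv one_ne_zero).clm_apply continuous_const
    exact (EuclideanSpace.proj (𝕜 := ℝ) k).continuous.comp h6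
  have hG : Continuous (fun x => fderiv ℝ F x (w x) + F x * dv w x) :=
    ((hF.continuous_fderiv one_ne_zero).clm_apply hw.continuous).add
      (hF.continuous.mul hdv)
  have hGc : HasCompactSupport (fun x => fderiv ℝ F x (w x) + F x * dv w x) := by
    refine HasCompactSupport.intro hFc.isCompact (fun x hx => ?_)
    have h6 : F x = 0 := image_eq_zero_of_notMem_tsupport hx
    have h7 : fderiv ℝ F x = 0 := by
      have h8 : x ∉ tsupport (fderiv ℝ F) := fun h => hx (tsupport_fderiv_subset ℝ h)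
      exact image_eq_zero_of_notMem_tsupport h8
    rw [h6, h7]
    simp
  refine h4 ρ hL _ hG hGc (fun h hh => ?_)
  obtain ⟨hSz, hCz⟩ := h2 ρ hS hL h hh
  rw [h3 (zz h ρ) F w hCz hF hFc hw]
  rw [neg_nonneg]
  refine integral_nonpos (fun x => ?_)
  show F x * fderiv ℝ (zz h ρ) x (w x) ≤ 0
  rcases le_or_gt (x k) (x l) with hx | hx
  · rw [hFi x hx, zero_mul]
  · obtain ⟨_, _, α, β, γ, hα, hβ, hγ, hβ1, hγ1, hd⟩ := hfield x hx
    exact mul_nonpos_of_nonneg_of_nonpos (hF0 x)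
      (point h1 (zz h ρ) hSz (hCz.differentiable one_ne_zero) k l x (w x) hx.le α β γ hα hβ hγ
        hβ1 hγ1 hd)

end Pool.Agent.W891.SX.Flow
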